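import Pool.Agent.Helper83.SH.VFc
import Pool.Agent.Helper76.RC.EJ
import Pool.Agent.Helper30.SH.ZRow
import Pool.Agent.Helper49.RC.CellR

/-!
# Project RC, SHARP: the kernel table of the Fourier coefficients of the alignment directions

`vTab … = some T` (from helper76's `ejC`): `T` has the entries `n = -N, …, N` of `VS · (v_j)^(n)`, `VS = 10^10`,
`v_j t = ee (inv (Th 1000 l) (t + j π/3) - t)`; `vTab_sound`: the error is at most `vE s E`.
-/

set_option autoImplicit false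

open MeasureTheory Set Filter

namespace Helper83.SH

open Helper49.LT hiding sg
open Helper49.RC (om)
open Helper56.RC (fc)
open Helper41.SH (IA inv)
open Helper87.RC (BM)
open Helper76.RC.TPoly Helper54.RC.Fast Helper76.RC.ExpF Helper76.RC.TrD
open Helper30.SH (coef_le)
open Helper49.Cell (zi bif_iff)

/-- the scale of the table -/
def VS : ℕ := 10000000000
/-- `10^10 √3` -/
def h3 : ℤ := 17320508076

/-- the sixth roots of unity, `2 e^{i r π / 3} = c + i √3 s` -/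
def rt : ℕ → ℤ × ℤ
  | 0 => (2, 0)
  | 1 => (1, 1)
  | 2 => (-1, 1)
  | 3 => (-2, 0)
  | 4 => (-1, -1)
  | _ => (1, -1)

/-- the coefficient of the frequency `-a` -/
def cneg (b : ℕ) (z : FP) (a : ℕ) : ℤ × ℤ :=
  bif Nat.ble a z.N then
    (Int.sub (Int.ofNat (dg b (Nat.sub z.N a) z.x)) (Int.ofNat (Nat.pow 2 b)),
      Int.sub (Int.ofNat (dg b (Nat.sub z.N a) z.y)) (Int.ofNat (Nat.pow 2 b)))
  else (0, 0)

/-- `VS e^{i r π/3} conj (c) / (m 2^s)`, rounded -/
def wEnt (s m : ℕ) (u c : ℤ × ℤ) : ℤ × ℤ :=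
  (Int.ediv (Int.add (Int.mul (Int.mul 10000000000 u.1) c.1) (Int.mul (Int.mul h3 u.2) c.2))
      (Int.ofNat (Nat.mul (Nat.mul 2 m) (Nat.pow 2 s))),
    Int.ediv (Int.sub (Int.mul (Int.mul h3 u.2) c.1) (Int.mul (Int.mul 10000000000 u.1) c.2))
      (Int.ofNat (Nat.mul (Nat.mul 2 m) (Nat.pow 2 s))))

/-- the entry of the frequency `m - 1 ≥ 0` -/
def ePos (b s j : ℕ) (rr : List PF) (m : ℕ) : ℤ × ℤ :=
  match rr[m - 1]? with
  | some p => wEnt s m (rt (Nat.mod (Nat.mul m j) 6)) (cneg b p.z (m - 1))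
  | none => (0, 0)

/-- minus the conjugate -/
def ncj (p : ℤ × ℤ) : ℤ × ℤ := (Int.neg p.1, p.2)

/-- the entry of the frequency `-(m + 1) ≤ -2` -/
def eNeg (b s j : ℕ) (rr : List PF) (m : ℕ) : ℤ × ℤ :=
  match rr[m - 1]? with
  | some p => ncj (wEnt s m (rt (Nat.mod (Nat.mul m j) 6)) (cneg b p.z (m + 1)))
  | none => (0, 0)

/-- the entry of the frequency `-1` (`Q = 1000`) -/
def eOne : List (ℤ × ℤ) → ℤ × ℤ
  | [] => (0, 0)
  | p :: _ => (Int.neg (Int.mul 5000000 p.2), Int.mul 5000000 p.1)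

/-- the entry number `i`, frequency `i - N` -/
def vEnt (b s j N : ℕ) (l : List (ℤ × ℤ)) (rr : List PF) (i : ℕ) : ℤ × ℤ :=
  bif Nat.ble N i then ePos b s j rr (Nat.succ (Nat.sub i N))
  else bif Nat.beq (Nat.succ i) N then eOne l
  else eNeg b s j rr (Nat.sub (Nat.sub N i) 1)

/-- the table -/
def vT (b s j N : ℕ) (l : List (ℤ × ℤ)) (rr : List PF) : List (ℤ × ℤ) :=
  (List.range (2 * N + 1)).map (vEnt b s j N l rr)

/-- the error of the table -/
def vE (s E : ℕ) : ℕ := Nat.add (Nat.div (Nat.mul (Nat.mul 2 E) 10000000000) (Nat.pow 2 s)) 3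

/-- all errors are at most `E` -/
def erOk (E : ℕ) : List PF → Bool
  | [] => true
  | p :: l => bif Nat.ble p.er E then erOk E l else false

/-- **THE TABLE WITH ITS CHECK**, from the list of the approximations (helper76's order) -/
def vTr (b s E N j : ℕ) (l : List (ℤ × ℤ)) (res : List PF) : Option (List (ℤ × ℤ)) :=
  bif Nat.ble (Nat.succ N) res.length then
    bif erOk E res then some (vT b s j N l res.reverse) else none
  else none

/-- the same, with the approximations -/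
def vTab (b r s sE M R n τ E N j : ℕ) (l : List (ℤ × ℤ)) (ws : List ℕ) : Option (List (ℤ × ℤ)) :=
  match ejC b r s sE M 1000 R n τ 1 l ws with
  | some res => vTr b s E N j l res
  | none => none

/-- the entry of the frequency `n` in a table of the length `2 N + 1` -/
def vA (T : List (ℤ × ℤ)) (N : ℕ) (n : ℤ) : ℤ × ℤ := T.getD (n + N).toNat (0, 0)

/-! ### soundness -/

theorem erOk_sound {E : ℕ} {l : List PF} (h : erOk E l = true) : ∀ p ∈ l, p.er ≤ E := by
  induction l with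
  | nil => intro p hp; simp at hp
  | cons q l ih =>
    unfold erOk at h
    rw [bif_iff] at h
    obtain ⟨h1, h2⟩ := h
    intro p hp
    rcases List.mem_cons.1 hp with rfl | hp
    · exact Nat.le_of_ble_eq_true h1
    · exact ih h2 p hp

theorem zi_cneg (b : ℕ) (z : FP) (a : ℕ) : zi (cneg b z a) = Helper30.SH.cf b z (-(a : ℤ)) := by
  unfold cneg Helper30.SH.cf
  by_cases h : a ≤ z.N
  · have e1 : Nat.ble a z.N = true := Nat.ble_eq_true_of_le h
    rw [e1, cond_true]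
    have e2 : -(a : ℤ) ∈ Finset.Icc (-(z.N : ℤ)) z.N := by
      rw [Finset.mem_Icc]
      constructor <;> omega
    rw [if_pos e2]
    have e3 : (-(a : ℤ) + z.N).toNat = z.N - a := by omega
    rw [e3]
    unfold Helper54.RC.Fast.cc zi
    have e4 : ∀ x y : ℤ, Int.sub x y = x - y := fun _ _ => rfl
    have e5 : ∀ x : ℕ, Int.ofNat x = (x : ℤ) := fun _ => rfl
    have e6 : Nat.sub z.N a = z.N - a := rfl
    have e7 : Nat.pow 2 b = 2 ^ b := rfl
    simp only [e4, e5, e6, e7]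
    push_cast
    rfl
  · have e1 : Nat.ble a z.N = false := by
      rw [← Bool.not_eq_true]
      intro h2
      exact h (Nat.le_of_ble_eq_true h2)
    rw [e1, cond_false]
    have e2 : ¬ -(a : ℤ) ∈ Finset.Icc (-(z.N : ℤ)) z.N := by
      rw [Finset.mem_Icc, not_and_or]
      left
      omega
    rw [if_neg e2]
    simp [zi]

theorem sqrt3_near : |Real.sqrt 3 * 10000000000 - h3| ≤ 1 / 2 := by
  have h0 : 0 ≤ Real.sqrt 3 := Real.sqrt_nonneg _
  have e : ((h3 : ℤ) : ℝ) = 17320508076 := by norm_num [h3]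
  rw [e, abs_le]
  constructor
  · have : (17320508075.5 / 10000000000 : ℝ) ≤ Real.sqrt 3 := Real.le_sqrt_of_sq_le (by norm_num)
    linarith
  · have : Real.sqrt 3 ≤ 17320508076.5 / 10000000000 := by
      rw [Real.sqrt_le_left (by norm_num)]
      norm_num
    linarith

/-- the root of unity, exact -/
noncomputable def rc (u : ℤ × ℤ) : ℂ := ((u.1 : ℂ) + Complex.I * ((u.2 : ℂ) * (Real.sqrt 3 : ℂ))) / 2
/-- the root of unity with the decimal value of `√3` -/
noncomputable def ra (u : ℤ × ℤ) : ℂ := ((u.1 : ℂ) + Complex.I * ((u.2 : ℂ) * ((h3 : ℤ) : ℂ) / 10000000000)) / 2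

theorem rt_snd (r : ℕ) : |((rt r).2 : ℝ)| ≤ 1 := by
  rcases r with _ | _ | _ | _ | _ | r <;> simp [rt]

theorem rc_ra (r : ℕ) : ‖rc (rt r) - ra (rt r)‖ ≤ 1 / 40000000000 := by
  have h1 := rt_snd r
  have h2 := sqrt3_near
  set u := rt r
  have e : rc u - ra u = ((((u.2 : ℝ) / 20000000000) * (Real.sqrt 3 * 10000000000 - h3) : ℝ) : ℂ) * Complex.I := by
    unfold rc ra
    push_cast
    ring
  rw [e, norm_mul, Complex.norm_I, mul_one, Complex.norm_real, Real.norm_eq_abs, abs_mul, abs_div]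
  have h3' := abs_nonneg (Real.sqrt 3 * 10000000000 - (h3 : ℝ))
  have h4 : |(u.2 : ℝ)| / |(20000000000 : ℝ)| ≤ 1 / 20000000000 := by
    rw [abs_of_pos (by norm_num : (0 : ℝ) < 20000000000)]
    exact div_le_div_of_nonneg_right h1 (by norm_num)
  calc |(u.2 : ℝ)| / |(20000000000 : ℝ)| * |Real.sqrt 3 * 10000000000 - (h3 : ℝ)| ≤ 1 / 20000000000 * (1 / 2) :=
        mul_le_mul h4 h2 h3' (by norm_num)
    _ = 1 / 40000000000 := by norm_num

theorem om_cart : om = (1 + Complex.I * (Real.sqrt 3 : ℂ)) / 2 := by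
  apply Complex.ext
  · rw [Helper49.Cell.CB.omre]; simp
  · rw [Helper49.Cell.CB.omim]; simp

theorem om_pow (k : ℕ) : ee ((k : ℝ) * (Real.pi / 3)) = om ^ k := by
  unfold om
  rw [Helper76.RC.TrD.ee_pow]

theorem om_three : om ^ 3 = -1 := by
  have h : ((Real.sqrt 3 : ℝ) : ℂ) ^ 2 = 3 := by
    rw [← Complex.ofReal_pow, Real.sq_sqrt (by norm_num)]; norm_num
  rw [om_cart]
  have hI : Complex.I ^ 2 = -1 := Complex.I_sq
  have e : ((1 + Complex.I * (Real.sqrt 3 : ℂ)) / 2) ^ 3 =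
      (1 + 3 * (Complex.I * (Real.sqrt 3 : ℂ)) + 3 * (Complex.I ^ 2 * (Real.sqrt 3 : ℂ) ^ 2)
        + (Complex.I ^ 2 * (Real.sqrt 3 : ℂ) ^ 2) * (Complex.I * (Real.sqrt 3 : ℂ))) / 8 := by ring
  rw [e, h, hI]
  ring

theorem rt_pow (k : ℕ) : om ^ k = rc (rt (k % 6)) := by
  have h6 : om ^ 6 = 1 := by
    rw [show (6 : ℕ) = 3 * 2 by norm_num, pow_mul, om_three]; norm_num
  have e : om ^ k = om ^ (k % 6) := by
    conv_lhs => rw [← Nat.div_add_mod k 6, pow_add, pow_mul, h6, one_pow, one_mul]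
  have h : ((Real.sqrt 3 : ℝ) : ℂ) ^ 2 = 3 := by
    rw [← Complex.ofReal_pow, Real.sq_sqrt (by norm_num)]; norm_num
  have hI : Complex.I ^ 2 = -1 := Complex.I_sq
  have h2 : om ^ 2 = (-1 + Complex.I * (Real.sqrt 3 : ℂ)) / 2 := by
    rw [om_cart]
    have e : ((1 + Complex.I * (Real.sqrt 3 : ℂ)) / 2) ^ 2 =
      (1 + 2 * (Complex.I * (Real.sqrt 3 : ℂ)) + Complex.I ^ 2 * (Real.sqrt 3 : ℂ) ^ 2) / 4 := by ring
    rw [e, h, hI]
    ring
  rw [e]
  have hlt : k % 6 < 6 := Nat.mod_lt _ (by norm_num)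
  generalize k % 6 = r at hlt
  interval_cases r
  · simp [rc, rt]
  · rw [pow_one, om_cart]; simp [rc, rt]
  · rw [h2]; simp [rc, rt]
  · rw [om_three]; simp [rc, rt]
  · rw [show (4 : ℕ) = 3 + 1 by norm_num, pow_add, om_three, pow_one, om_cart]
    simp [rc, rt]
    ring
  · rw [show (5 : ℕ) = 3 + 2 by norm_num, pow_add, om_three, h2]
    simp [rc, rt]
    ring

theorem rc_norm (r : ℕ) : ‖rc (rt r)‖ = 1 := by
  have h1 : ‖om‖ = 1 := by unfold om; exact norm_ee _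
  have h2 : ∃ k : ℕ, rt r = rt (k % 6) := by
    rcases Nat.lt_or_ge r 6 with h | h
    · exact ⟨r, by rw [Nat.mod_eq_of_lt h]⟩
    · refine ⟨5, ?_⟩
      obtain ⟨q, rfl⟩ : ∃ q, r = q + 6 := ⟨r - 6, by omega⟩
      rfl
  obtain ⟨k, hk⟩ := h2
  rw [hk, ← rt_pow, norm_pow, h1, one_pow]

/-- the exact value of the unrounded entry -/
theorem wEnt_near (s m : ℕ) (hm : 0 < m) (u c : ℤ × ℤ) :
    ‖ra u * (starRingEnd ℂ) (zi c) / ((m : ℂ) * 2 ^ s) - zi (wEnt s m u c) / 10000000000‖ ≤ 3 / 2 / 10000000000 := by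
  set K : ℕ := 2 * m * 2 ^ s with hK
  have hK0 : 0 < K := by positivity
  have hKr : (0 : ℝ) < K := by exact_mod_cast hK0
  set X : ℤ := 10000000000 * u.1 * c.1 + h3 * u.2 * c.2 with hX
  set Y : ℤ := h3 * u.2 * c.1 - 10000000000 * u.1 * c.2 with hY
  have e1 : wEnt s m u c = (X / (K : ℤ), Y / (K : ℤ)) := rfl
  have e2 : ra u * (starRingEnd ℂ) (zi c) / ((m : ℂ) * 2 ^ s) = (((X : ℝ) / K : ℝ) + Complex.I * ((Y : ℝ) / K : ℝ)) / 10000000000 := by
    have hm' : (m : ℂ) ≠ 0 := by exact_mod_cast hm.ne'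
    have h2 : (2 ^ s : ℂ) ≠ 0 := pow_ne_zero _ two_ne_zero
    have hKc : (K : ℂ) = 2 * m * 2 ^ s := by rw [hK]; push_cast; ring
    unfold ra zi
    rw [map_add, map_mul, Complex.conj_I, map_intCast, map_intCast]
    push_cast
    rw [hKc, hX, hY]
    push_cast
    field_simp
    ring_nf
    simp only [Complex.I_sq]
    ring
  have k1 : |(X : ℝ) / K - ((X / (K : ℤ) : ℤ) : ℝ)| ≤ 1 := by
    have a1 := Int.mul_ediv_add_emod X K
    have a2 := Int.emod_nonneg X (by exact_mod_cast hK0.ne' : (K : ℤ) ≠ 0)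
    have a3 := Int.emod_lt_of_pos X (by exact_mod_cast hK0 : (0 : ℤ) < K)
    have b1 : ((K : ℝ)) * ((X / (K : ℤ) : ℤ) : ℝ) + ((X % (K : ℤ) : ℤ) : ℝ) = X := by exact_mod_cast a1
    have b2 : (0 : ℝ) ≤ ((X % (K : ℤ) : ℤ) : ℝ) := by exact_mod_cast a2
    have b3 : ((X % (K : ℤ) : ℤ) : ℝ) ≤ K := by exact_mod_cast a3.le
    have e : (X : ℝ) / K - ((X / (K : ℤ) : ℤ) : ℝ) = ((X % (K : ℤ) : ℤ) : ℝ) / K := by
      field_simp
      linarith
    rw [e, abs_of_nonneg (by positivity), div_le_one hKr]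
    exact b3
  have k2 : |(Y : ℝ) / K - ((Y / (K : ℤ) : ℤ) : ℝ)| ≤ 1 := by
    have a1 := Int.mul_ediv_add_emod Y K
    have a2 := Int.emod_nonneg Y (by exact_mod_cast hK0.ne' : (K : ℤ) ≠ 0)
    have a3 := Int.emod_lt_of_pos Y (by exact_mod_cast hK0 : (0 : ℤ) < K)
    have b1 : ((K : ℝ)) * ((Y / (K : ℤ) : ℤ) : ℝ) + ((Y % (K : ℤ) : ℤ) : ℝ) = Y := by exact_mod_cast a1
    have b2 : (0 : ℝ) ≤ ((Y % (K : ℤ) : ℤ) : ℝ) := by exact_mod_cast a2
    have b3 : ((Y % (K : ℤ) : ℤ) : ℝ) ≤ K := by exact_mod_cast a3.le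
    have e : (Y : ℝ) / K - ((Y / (K : ℤ) : ℤ) : ℝ) = ((Y % (K : ℤ) : ℤ) : ℝ) / K := by
      field_simp
      linarith
    rw [e, abs_of_nonneg (by positivity), div_le_one hKr]
    exact b3
  rw [e1, e2]
  set p := (X : ℝ) / K - ((X / (K : ℤ) : ℤ) : ℝ) with hp
  set q := (Y : ℝ) / K - ((Y / (K : ℤ) : ℤ) : ℝ) with hq
  have e3 : ((((X : ℝ) / K : ℝ) : ℂ) + Complex.I * (((Y : ℝ) / K : ℝ) : ℂ)) / 10000000000
      - zi (X / (K : ℤ), Y / (K : ℤ)) / 10000000000 = ((p : ℂ) + Complex.I * (q : ℂ)) / 10000000000 := by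
    unfold zi
    rw [hp, hq]
    push_cast
    ring
  rw [e3, norm_div, Complex.norm_ofNat]
  refine div_le_div_of_nonneg_right ?_ (by norm_num)
  have h4 : ‖(p : ℂ) + Complex.I * (q : ℂ)‖ ^ 2 = p ^ 2 + q ^ 2 := by
    rw [← Complex.normSq_eq_norm_sq, Complex.normSq_apply]
    simp
    ring
  have h5 : p ^ 2 ≤ 1 := by rw [← sq_abs]; nlinarith [abs_nonneg p]
  have h6 : q ^ 2 ≤ 1 := by rw [← sq_abs]; nlinarith [abs_nonneg q]
  refine abs_le_of_sq_le_sq' ?_ (by norm_num) |>.2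
  rw [h4]
  linarith

theorem vE_le (s E : ℕ) : 2 * (E : ℝ) * 10000000000 / 2 ^ s + 2 ≤ vE s E := by
  have e : vE s E = 2 * E * 10000000000 / 2 ^ s + 3 := rfl
  have h1 : ((2 * E * 10000000000 : ℕ) : ℝ) / ((2 ^ s : ℕ) : ℝ) ≤ ((2 * E * 10000000000 / 2 ^ s + 1 : ℕ) : ℝ) := by
    rw [div_le_iff₀ (by positivity)]
    have := Nat.lt_mul_div_succ (2 * E * 10000000000) (by positivity : 0 < 2 ^ s)
    have h2 : 2 * E * 10000000000 ≤ (2 * E * 10000000000 / 2 ^ s + 1) * 2 ^ s := by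
      rw [mul_comm (2 * E * 10000000000 / 2 ^ s + 1)]; exact this.le
    exact_mod_cast h2
  rw [e]
  push_cast at h1 ⊢
  linarith

/-- the common step: `u conj F / m` against the table -/
theorem ent_near {s m E : ℕ} (hm : 0 < m) (r : ℕ) {p : PF} {F c : ℂ} (hF : ‖F‖ ≤ 1) (hp : p.er ≤ E) {q : ℤ × ℤ}
    (hc : zi q = c) (h : ‖F - c / 2 ^ s‖ ≤ (p.er : ℝ) / 2 ^ s) :
    ‖rc (rt r) * (starRingEnd ℂ) F / (m : ℂ) - zi (wEnt s m (rt r) q) / 10000000000‖ ≤ (vE s E : ℝ) / 10000000000 := by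
  have h1 := wEnt_near s m hm (rt r) q
  rw [hc] at h1
  have h2 := rc_ra r
  have hmr : (1 : ℝ) ≤ m := by exact_mod_cast hm
  have hs : (0 : ℝ) < 2 ^ s := by positivity
  have hu : ‖ra (rt r)‖ ≤ 2 := by
    have a1 := rc_norm r
    have a2 : ‖ra (rt r)‖ ≤ ‖rc (rt r)‖ + ‖rc (rt r) - ra (rt r)‖ := by
      have := norm_sub_norm_le (ra (rt r)) (rc (rt r))
      rw [norm_sub_rev] at this
      linarith
    linarith
  have e : rc (rt r) * (starRingEnd ℂ) F / (m : ℂ) - zi (wEnt s m (rt r) q) / 10000000000 =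
      ((rc (rt r) - ra (rt r)) * (starRingEnd ℂ) F + ra (rt r) * (starRingEnd ℂ) (F - c / 2 ^ s)) / (m : ℂ)
      + (ra (rt r) * (starRingEnd ℂ) c / ((m : ℂ) * 2 ^ s) - zi (wEnt s m (rt r) q) / 10000000000) := by
    have hm' : (m : ℂ) ≠ 0 := by exact_mod_cast hm.ne'
    have h2 : (2 ^ s : ℂ) ≠ 0 := pow_ne_zero _ two_ne_zero
    have h3 : (starRingEnd ℂ) (2 ^ s : ℂ) = 2 ^ s := by rw [map_pow, Complex.conj_ofNat]
    rw [map_sub, map_div₀, h3]
    field_simp
    ring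
  rw [e]
  refine (norm_add_le _ _).trans ?_
  have k1 : ‖((rc (rt r) - ra (rt r)) * (starRingEnd ℂ) F + ra (rt r) * (starRingEnd ℂ) (F - c / 2 ^ s)) / (m : ℂ)‖ ≤
      1 / 40000000000 + 2 * ((E : ℝ) / 2 ^ s) := by
    rw [norm_div, Complex.norm_natCast, div_le_iff₀ (by linarith)]
    have a1 : ‖(rc (rt r) - ra (rt r)) * (starRingEnd ℂ) F‖ ≤ 1 / 40000000000 := by
      rw [norm_mul, Complex.norm_conj]
      calc ‖rc (rt r) - ra (rt r)‖ * ‖F‖ ≤ 1 / 40000000000 * 1 := mul_le_mul h2 hF (norm_nonneg _) (by norm_num)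
        _ = _ := by ring
    have a2 : ‖ra (rt r) * (starRingEnd ℂ) (F - c / 2 ^ s)‖ ≤ 2 * ((E : ℝ) / 2 ^ s) := by
      rw [norm_mul, Complex.norm_conj]
      have : (p.er : ℝ) / 2 ^ s ≤ (E : ℝ) / 2 ^ s := div_le_div_of_nonneg_right (by exact_mod_cast hp) hs.le
      exact mul_le_mul hu (h.trans this) (norm_nonneg _) (by norm_num)
    have a3 := (norm_add_le ((rc (rt r) - ra (rt r)) * (starRingEnd ℂ) F) (ra (rt r) * (starRingEnd ℂ) (F - c / 2 ^ s))).trans
      (add_le_add a1 a2)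
    have a4 : 0 ≤ 1 / 40000000000 + 2 * ((E : ℝ) / 2 ^ s) := by positivity
    nlinarith
  have k2 := vE_le s E
  have k3 : (vE s E : ℝ) / 10000000000 ≥ (2 * (E : ℝ) * 10000000000 / 2 ^ s + 2) / 10000000000 :=
    div_le_div_of_nonneg_right k2 (by norm_num)
  have k4 : (2 * (E : ℝ) * 10000000000 / 2 ^ s + 2) / 10000000000 = 2 * ((E : ℝ) / 2 ^ s) + 2 / 10000000000 := by
    field_simp
  rw [k4] at k3
  have k5 := add_le_add k1 h1
  refine k5.trans ?_
  have : (1 : ℝ) / 40000000000 + 3 / 2 / 10000000000 ≤ 2 / 10000000000 := by norm_num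
  linarith

/-- the coefficients of a function of modulus one -/
theorem fc_le_one {f : ℝ → ℂ} (hf : BM f 1) (n : ℤ) : ‖fc f n‖ ≤ 1 := by
  have h := Helper30.SH.sum_sq_le hf {n}
  rw [Finset.sum_singleton, one_pow] at h
  have := norm_nonneg (fc f n)
  nlinarith

theorem eeD_bm (m : ℕ) (l : List (ℤ × ℤ)) : BM (fun t => ee (-((m : ℝ) * Dt 1000 l t))) 1 := by
  refine ⟨?_, fun t => (norm_ee _).le⟩
  have : Continuous fun t : ℝ => ee (-((m : ℝ) * Dt 1000 l t)) :=
    continuous_ee.comp ((continuous_const.mul (continuous_Dt 1000 l)).neg)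
  exact this.measurable

/-- the entries of the positive frequencies -/
theorem pos_near {b s j E : ℕ} {l : List (ℤ × ℤ)} {rr : List PF} {Θ' : ℝ → ℝ} (hI : IA (Th 1000 l) Θ')
    (hA : ∀ (k : ℕ) (p : PF), rr[k]? = some p → AP b s p (fun t => ee (-(((1 + k : ℕ) : ℝ) * Dt 1000 l t))))
    (hE : ∀ p ∈ rr, p.er ≤ E) {k : ℕ} (hk : k < rr.length) :
    ‖fc (fun t => ee (inv (Th 1000 l) (t + (j : ℝ) * (Real.pi / 3)) - t)) (k : ℤ)
      - zi (ePos b s j rr (k + 1)) / 10000000000‖ ≤ (vE s E : ℝ) / 10000000000 := by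
  have hp : rr[k]? = some rr[k] := List.getElem?_eq_getElem hk
  set p := rr[k] with hpd
  have hpE := hE p (List.getElem_mem hk)
  have hap := hA k p hp
  rw [add_comm 1 k] at hap
  have hbm := eeD_bm (k + 1) l
  have hc := coef_le hbm hap (-(k : ℤ))
  have e0 := fc_v hI (fun x => rfl) ((j : ℝ) * (Real.pi / 3)) (n := (k : ℤ)) (by omega)
  have e1 : fc (fun x => ee ((((k : ℤ) : ℝ) + 1) * Dt 1000 l x)) (k : ℤ) =
      (starRingEnd ℂ) (fc (fun t => ee (-(((k + 1 : ℕ) : ℝ) * Dt 1000 l t))) (-(k : ℤ))) := by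
    rw [← Helper87.RC.fc_conj]
    congr 1
    funext x
    rw [← ee_neg, neg_neg]
    congr 1
    push_cast
    ring
  have e2 : ee ((((k : ℤ) : ℝ) + 1) * ((j : ℝ) * (Real.pi / 3))) = rc (rt (((k + 1) * j) % 6)) := by
    rw [← rt_pow, ← om_pow]
    congr 1
    push_cast
    ring
  have e3 : ePos b s j rr (k + 1) = wEnt s (k + 1) (rt (((k + 1) * j) % 6)) (cneg b p.z k) := by
    unfold ePos
    rw [Nat.add_sub_cancel, hp]
    rfl
  have e4 : (((k : ℤ) : ℂ) + 1) = ((k + 1 : ℕ) : ℂ) := by push_cast; ring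
  rw [e0, e1, e2, e3, e4]
  have := ent_near (s := s) (m := k + 1) (E := E) (Nat.succ_pos k) (((k + 1) * j) % 6) (p := p)
    (fc_le_one hbm (-(k : ℤ))) hpE (zi_cneg b p.z k) hc
  rw [div_mul_eq_mul_div]
  exact this

/-- the entries of the frequencies `≤ -2` -/
theorem neg_near {b s j E : ℕ} {l : List (ℤ × ℤ)} {rr : List PF} {Θ' : ℝ → ℝ} (hI : IA (Th 1000 l) Θ')
    (hA : ∀ (k : ℕ) (p : PF), rr[k]? = some p → AP b s p (fun t => ee (-(((1 + k : ℕ) : ℝ) * Dt 1000 l t))))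
    (hE : ∀ p ∈ rr, p.er ≤ E) {k : ℕ} (hk : k < rr.length) :
    ‖fc (fun t => ee (inv (Th 1000 l) (t + (j : ℝ) * (Real.pi / 3)) - t)) (-((k + 2 : ℕ) : ℤ))
      - zi (eNeg b s j rr (k + 1)) / 10000000000‖ ≤ (vE s E : ℝ) / 10000000000 := by
  have hp : rr[k]? = some rr[k] := List.getElem?_eq_getElem hk
  set p := rr[k] with hpd
  have hpE := hE p (List.getElem_mem hk)
  have hap := hA k p hp
  rw [add_comm 1 k] at hap
  have hbm := eeD_bm (k + 1) l
  have hc := coef_le hbm hap (-((k + 2 : ℕ) : ℤ))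
  have e0 := fc_v hI (fun x => rfl) ((j : ℝ) * (Real.pi / 3)) (n := -((k + 2 : ℕ) : ℤ)) (by omega)
  set F := fc (fun t => ee (-(((k + 1 : ℕ) : ℝ) * Dt 1000 l t))) (-((k + 2 : ℕ) : ℤ)) with hF
  have e1 : fc (fun x => ee ((((-((k + 2 : ℕ) : ℤ) : ℤ) : ℝ) + 1) * Dt 1000 l x)) (-((k + 2 : ℕ) : ℤ)) = F := by
    rw [hF]
    congr 1
    funext x
    congr 1
    push_cast
    ring
  have e2 : ee ((((-((k + 2 : ℕ) : ℤ) : ℤ) : ℝ) + 1) * ((j : ℝ) * (Real.pi / 3))) =
      (starRingEnd ℂ) (rc (rt (((k + 1) * j) % 6))) := by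
    rw [← rt_pow, ← om_pow, ← ee_neg]
    congr 1
    push_cast
    ring
  have e3 : eNeg b s j rr (k + 1) = ncj (wEnt s (k + 1) (rt (((k + 1) * j) % 6)) (cneg b p.z (k + 2))) := by
    unfold eNeg
    rw [Nat.add_sub_cancel, hp]
    rfl
  have e4 : (((-((k + 2 : ℕ) : ℤ) : ℤ) : ℂ) + 1) = -((k + 1 : ℕ) : ℂ) := by push_cast; ring
  rw [e0, e1, e2, e3, e4]
  have key := ent_near (s := s) (m := k + 1) (E := E) (Nat.succ_pos k) (((k + 1) * j) % 6) (p := p)
    (fc_le_one hbm (-((k + 2 : ℕ) : ℤ))) hpE (zi_cneg b p.z (k + 2)) hc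
  set W := wEnt s (k + 1) (rt (((k + 1) * j) % 6)) (cneg b p.z (k + 2)) with hW
  have e5 : zi (ncj W) = -(starRingEnd ℂ) (zi W) := by
    unfold zi ncj
    have : (Int.neg W.1 : ℤ) = -W.1 := rfl
    rw [this, map_add, map_mul, Complex.conj_I, map_intCast, map_intCast]
    push_cast
    ring
  have e6 : (starRingEnd ℂ) (rc (rt ((k + 1) * j % 6))) / -((k + 1 : ℕ) : ℂ) * F - zi (ncj W) / 10000000000 =
      -(starRingEnd ℂ) (rc (rt ((k + 1) * j % 6)) * (starRingEnd ℂ) F / ((k + 1 : ℕ) : ℂ) - zi W / 10000000000) := by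
    have a1 : (starRingEnd ℂ) ((k + 1 : ℕ) : ℂ) = ((k + 1 : ℕ) : ℂ) := Complex.conj_natCast _
    have a2 : (starRingEnd ℂ) (10000000000 : ℂ) = 10000000000 := Complex.conj_ofNat _
    rw [e5, map_sub, map_div₀, map_div₀, map_mul, Complex.conj_conj, a1, a2]
    ring
  rw [e6, norm_neg, Complex.norm_conj]
  exact key

theorem cs_ee (k : ℤ) (t : ℝ) (p : ℤ × ℤ) : (((p.1 : ℝ) * Real.cos (k * t) + (p.2 : ℝ) * Real.sin (k * t) : ℝ) : ℂ) =
    (((p.1 : ℂ) - Complex.I * p.2) / 2) * ee ((k : ℝ) * t)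
      + (((p.1 : ℂ) + Complex.I * p.2) / 2) * ee (((-k : ℤ) : ℝ) * t) := by
  have e1 : ee (((-k : ℤ) : ℝ) * t) = (starRingEnd ℂ) (ee ((k : ℝ) * t)) := by
    rw [← ee_neg]
    congr 1
    push_cast
    ring
  rw [e1]
  apply Complex.ext
  · simp only [Complex.add_re, Complex.mul_re, Complex.conj_re, Complex.conj_im, Complex.ofReal_re, ee_re, ee_im,
      Complex.div_ofNat_re, Complex.div_ofNat_im, Complex.sub_re, Complex.sub_im, Complex.add_im,
      Complex.mul_im, Complex.I_re, Complex.I_im, Complex.intCast_re, Complex.intCast_im]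
    ring
  · simp only [Complex.add_im, Complex.mul_im, Complex.conj_re, Complex.conj_im, Complex.ofReal_im, ee_re, ee_im,
      Complex.div_ofNat_re, Complex.div_ofNat_im, Complex.sub_re, Complex.sub_im, Complex.add_re,
      Complex.mul_re, Complex.I_re, Complex.I_im, Complex.intCast_re, Complex.intCast_im]
    ring

theorem DA_bm (k : ℕ) (l : List (ℤ × ℤ)) : ∃ C, BM (fun t => (DA k l t : ℂ)) C := by
  induction l generalizing k with
  | nil => exact ⟨0, by simp only [DA]; exact measurable_const, fun t => by simp [DA]⟩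
  | cons p l ih =>
    obtain ⟨C, hC⟩ := ih (k + 1)
    have h1 := (BM.eec ((k : ℤ) : ℝ)).cmul (((p.1 : ℂ) - Complex.I * p.2) / 2)
    have h2 := (BM.eec (((-(k : ℤ)) : ℤ) : ℝ)).cmul (((p.1 : ℂ) + Complex.I * p.2) / 2)
    have e : (fun t => (DA k (p :: l) t : ℂ)) = fun t => ((((p.1 : ℂ) - Complex.I * p.2) / 2) * ee (((k : ℤ) : ℝ) * t)
      + (((p.1 : ℂ) + Complex.I * p.2) / 2) * ee (((-(k : ℤ) : ℤ) : ℝ) * t)) + (DA (k + 1) l t : ℂ) := by
      funext t
      rw [← cs_ee]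
      simp only [DA]
      push_cast
      ring
    rw [e]
    exact ⟨_, (h1.add h2).add hC⟩

theorem fc_DA (k : ℕ) (p : ℤ × ℤ) (l : List (ℤ × ℤ)) (n : ℤ) : fc (fun t => (DA k (p :: l) t : ℂ)) n =
    (((p.1 : ℂ) - Complex.I * p.2) / 2) * (if n = (k : ℤ) then 1 else 0)
      + (((p.1 : ℂ) + Complex.I * p.2) / 2) * (if n = -(k : ℤ) then 1 else 0) + fc (fun t => (DA (k + 1) l t : ℂ)) n := by
  obtain ⟨C, hC⟩ := DA_bm (k + 1) l
  have h1 := (BM.eec ((k : ℤ) : ℝ)).cmul (((p.1 : ℂ) - Complex.I * p.2) / 2)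
  have h2 := (BM.eec (((-(k : ℤ)) : ℤ) : ℝ)).cmul (((p.1 : ℂ) + Complex.I * p.2) / 2)
  have e : (fun t => (DA k (p :: l) t : ℂ)) = fun t => ((((p.1 : ℂ) - Complex.I * p.2) / 2) * ee (((k : ℤ) : ℝ) * t)
      + (((p.1 : ℂ) + Complex.I * p.2) / 2) * ee (((-(k : ℤ) : ℤ) : ℝ) * t)) + (DA (k + 1) l t : ℂ) := by
    funext t
    rw [← cs_ee]
    simp only [DA]
    push_cast
    ring
  rw [e, Helper87.RC.fc_add (h1.add h2) hC, Helper87.RC.fc_add h1 h2, Helper87.RC.fc_cmul, Helper87.RC.fc_cmul,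
    Pool.Agent.Helper20.RC.fc_eek, Pool.Agent.Helper20.RC.fc_eek]

theorem fc_DA_high (k : ℕ) (hk : 2 ≤ k) (l : List (ℤ × ℤ)) : fc (fun t => (DA k l t : ℂ)) (-1) = 0 := by
  induction l generalizing k with
  | nil =>
    unfold fc
    simp [DA]
  | cons p l ih =>
    rw [fc_DA, ih (k + 1) (by omega), if_neg (by omega), if_neg (by omega)]
    ring

/-- the frequency `-1` -/
theorem one_eq {l : List (ℤ × ℤ)} {Θ' : ℝ → ℝ} (hI : IA (Th 1000 l) Θ') (x : ℝ) :
    fc (fun t => ee (inv (Th 1000 l) (t + x) - t)) (-1) = zi (eOne l) / 10000000000 := by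
  rw [fc_v_neg hI (fun x => rfl) x]
  have e : (fun x => ((Dt 1000 l x : ℝ) : ℂ)) = fun x => (1 / 1000 : ℂ) * (DA 1 l x : ℂ) := by
    funext y
    unfold Dt
    push_cast
    ring
  rw [e, Helper87.RC.fc_cmul]
  cases l with
  | nil =>
    have : fc (fun t => (DA 1 [] t : ℂ)) (-1) = 0 := by
      unfold fc
      simp [DA]
    rw [this]
    simp [eOne, zi]
  | cons p l =>
    rw [fc_DA, fc_DA_high 2 le_rfl, if_neg (by norm_num), if_pos (by norm_num)]
    unfold eOne zi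
    have e1 : ∀ x y : ℤ, Int.mul x y = x * y := fun _ _ => rfl
    have e2 : ∀ x : ℤ, Int.neg x = -x := fun _ => rfl
    simp only [e1, e2]
    push_cast
    have hI2 : Complex.I * Complex.I = -1 := Complex.I_mul_I
    linear_combination ((p.2 : ℂ) / 2000) * hI2

/-- **THE SOUNDNESS OF THE TABLE** -/
theorem vTr_sound {b s E N j : ℕ} {l : List (ℤ × ℤ)} {res : List PF} {T : List (ℤ × ℤ)} {Θ' : ℝ → ℝ}
    (hI : IA (Th 1000 l) Θ')
    (hA : ∀ (k : ℕ) (p : PF), res.reverse[k]? = some p →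
      AP b s p (fun t => ee (-(((1 + k : ℕ) : ℝ) * Dt 1000 l t))))
    (h : vTr b s E N j l res = some T) {k : ℤ} (hk : |k| ≤ N) :
    ‖fc (fun t => ee (inv (Th 1000 l) (t + (j : ℝ) * (Real.pi / 3)) - t)) k - zi (vA T N k) / (VS : ℂ)‖ ≤
      (vE s E : ℝ) / VS := by
  have hVc : ((VS : ℕ) : ℂ) = 10000000000 := by norm_num [VS]
  have hVr : ((VS : ℕ) : ℝ) = 10000000000 := by norm_num [VS]
  rw [hVc, hVr]
  unfold vTr at h
  · cases h2 : Nat.ble (Nat.succ N) res.length with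
    | false => rw [h2] at h; simp at h
    | true =>
      rw [h2, cond_true] at h
      have h2 : N + 1 ≤ res.length := Nat.le_of_ble_eq_true h2
      cases h3 : erOk E res with
      | false => rw [h3] at h; simp at h
      | true =>
        rw [h3, cond_true] at h
        have hT : vT b s j N l res.reverse = T := Option.some.inj h
        have hE : ∀ p ∈ res.reverse, p.er ≤ E := fun p hp => erOk_sound h3 p (List.mem_reverse.1 hp)
        have hlen : N + 1 ≤ res.reverse.length := by rw [List.length_reverse]; exact h2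
        rw [abs_le] at hk
        -- the entry
        have hent : ∀ i : ℕ, i < 2 * N + 1 → T.getD i (0, 0) = vEnt b s j N l res.reverse i := by
          intro i hi
          rw [← hT]
          unfold vT
          rw [List.getD_eq_getElem?_getD, List.getElem?_map, List.getElem?_range hi]
          rfl
        have hv : vA T N k = vEnt b s j N l res.reverse (k + N).toNat := hent _ (by omega)
        rw [hv]
        unfold vEnt
        rcases le_or_gt 0 k with hk0 | hk0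
        · -- nonnegative
          have e1 : Nat.ble N (k + N).toNat = true := Nat.ble_eq_true_of_le (by omega)
          rw [e1, cond_true]
          have e2 : Nat.succ (Nat.sub (k + N).toNat N) = k.toNat + 1 := by
            show Nat.succ ((k + N).toNat - N) = _
            omega
          rw [e2]
          have := pos_near (j := j) hI hA hE (k := k.toNat) (by omega)
          have e3 : ((k.toNat : ℕ) : ℤ) = k := Int.toNat_of_nonneg hk0
          rw [e3] at this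
          exact this
        · have e1 : Nat.ble N (k + N).toNat = false := by
            rw [← Bool.not_eq_true]
            intro hh
            have := Nat.le_of_ble_eq_true hh
            omega
          rw [e1, cond_false]
          rcases eq_or_ne k (-1) with rfl | hk1
          · have e2 : Nat.beq (Nat.succ (-1 + (N : ℤ)).toNat) N = true := by
              have hN : Nat.succ (-1 + (N : ℤ)).toNat = N := by omega
              rw [hN]
              exact Nat.beq_refl N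
            rw [e2, cond_true, one_eq hI, sub_self, norm_zero]
            positivity
          · have e2 : Nat.beq (Nat.succ (k + (N : ℤ)).toNat) N = false := by
              rw [← Bool.not_eq_true]
              intro hh
              have := Nat.eq_of_beq_eq_true hh
              omega
            rw [e2, cond_false]
            have e3 : Nat.sub (Nat.sub N (k + N).toNat) 1 = (-k - 2).toNat + 1 := by
              show N - (k + N).toNat - 1 = _
              omega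
            rw [e3]
            have := neg_near (j := j) hI hA hE (k := (-k - 2).toNat) (by omega)
            have e4 : -(((-k - 2).toNat + 2 : ℕ) : ℤ) = k := by push_cast; omega
            rw [e4] at this
            exact this

theorem ejC_ap {b r s sE M R n τ : ℕ} {l : List (ℤ × ℤ)} {ws : List ℕ} {res : List PF} (hr : r ≤ b + 1) (hs : s ≤ b)
    (h : ejC b r s sE M 1000 R n τ 1 l ws = some res) (k : ℕ) (p : PF) (hp : res.reverse[k]? = some p) :
    AP b s p (fun t => ee (-(((1 + k : ℕ) : ℝ) * Dt 1000 l t))) := by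
  have := ejC_sound b r s sE M 1000 R n τ 1 l ws res hr hs h k p hp
  simpa only [Nat.mul_one] using this

theorem vTab_sound {b r s sE M R n τ E N j : ℕ} {l : List (ℤ × ℤ)} {ws : List ℕ} {T : List (ℤ × ℤ)} {Θ' : ℝ → ℝ}
    (hr : r ≤ b + 1) (hs : s ≤ b) (hI : IA (Th 1000 l) Θ') (h : vTab b r s sE M R n τ E N j l ws = some T)
    {k : ℤ} (hk : |k| ≤ N) :
    ‖fc (fun t => ee (inv (Th 1000 l) (t + (j : ℝ) * (Real.pi / 3)) - t)) k - zi (vA T N k) / (VS : ℂ)‖ ≤
      (vE s E : ℝ) / VS := by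
  unfold vTab at h
  cases h1 : ejC b r s sE M 1000 R n τ 1 l ws with
  | none => rw [h1] at h; simp at h
  | some res =>
    rw [h1] at h
    exact vTr_sound hI (fun k p hp => ejC_ap hr hs h1 k p hp) h hk

/-! ### records -/

open Helper49.Cell (Rec Crt)

/-- the table of `v1` of a record -/
theorem rec_v1 {Q : Rec} {C : Crt} (hQ : Q.ok C = true) {b r s sE M R n τ E N : ℕ} {ws : List ℕ} {T : List (ℤ × ℤ)}
    (hr : r ≤ b + 1) (hs : s ≤ b) (h : vTab b r s sE M R n τ E N 1 Q.D1 ws = some T) {k : ℤ} (hk : |k| ≤ N) :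
    ‖fc Q.par.v1 k - zi (vA T N k) / (VS : ℂ)‖ ≤ (vE s E : ℝ) / VS := by
  have := vTab_sound hr hs (Helper49.Cell.Rec.ok_sound hQ).i1 h hk
  rw [Nat.cast_one, one_mul] at this
  exact this

/-- the table of `v2` of a record -/
theorem rec_v2 {Q : Rec} {C : Crt} (hQ : Q.ok C = true) {b r s sE M R n τ E N : ℕ} {ws : List ℕ} {T : List (ℤ × ℤ)}
    (hr : r ≤ b + 1) (hs : s ≤ b) (h : vTab b r s sE M R n τ E N 2 Q.D2 ws = some T) {k : ℤ} (hk : |k| ≤ N) :
    ‖fc Q.par.v2 k - zi (vA T N k) / (VS : ℂ)‖ ≤ (vE s E : ℝ) / VS := by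
  have := vTab_sound hr hs (Helper49.Cell.Rec.ok_sound hQ).i2 h hk
  rw [Nat.cast_ofNat, show (2 : ℝ) * (Real.pi / 3) = 2 * Real.pi / 3 by ring] at this
  exact this

/-- the same from a shared list of approximations -/
theorem rec_v1r {Q : Rec} {C : Crt} (hQ : Q.ok C = true) {b r s sE M R n τ E N : ℕ} {ws : List ℕ} {res : List PF}
    {T : List (ℤ × ℤ)} (hr : r ≤ b + 1) (hs : s ≤ b) (h1 : ejC b r s sE M 1000 R n τ 1 Q.D1 ws = some res)
    (h : vTr b s E N 1 Q.D1 res = some T) {k : ℤ} (hk : |k| ≤ N) :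
    ‖fc Q.par.v1 k - zi (vA T N k) / (VS : ℂ)‖ ≤ (vE s E : ℝ) / VS := by
  have := vTr_sound (Helper49.Cell.Rec.ok_sound hQ).i1 (fun k p hp => ejC_ap hr hs h1 k p hp) h hk
  rw [Nat.cast_one, one_mul] at this
  exact this

theorem rec_v2r {Q : Rec} {C : Crt} (hQ : Q.ok C = true) {b r s sE M R n τ E N : ℕ} {ws : List ℕ} {res : List PF}
    {T : List (ℤ × ℤ)} (hr : r ≤ b + 1) (hs : s ≤ b) (h1 : ejC b r s sE M 1000 R n τ 1 Q.D2 ws = some res)
    (h : vTr b s E N 2 Q.D2 res = some T) {k : ℤ} (hk : |k| ≤ N) :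
    ‖fc Q.par.v2 k - zi (vA T N k) / (VS : ℂ)‖ ≤ (vE s E : ℝ) / VS := by
  have := vTr_sound (Helper49.Cell.Rec.ok_sound hQ).i2 (fun k p hp => ejC_ap hr hs h1 k p hp) h hk
  rw [Nat.cast_ofNat, show (2 : ℝ) * (Real.pi / 3) = 2 * Real.pi / 3 by ring] at this
  exact this

end Helper83.SH
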