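import Pool.Agent.Helper90.SH.FSDefs

/-!
# MP_506470_co : module FSg (orientation)
-/

namespace SetHom
namespace FS

variable {V : Type*} {G : SimpleGraph V} {K : List V → Prop}

theorem fsg_mono_reverse (hm : Mono G K) : Mono G (fun l => K l.reverse) := by
  intro a b c v h
  have := hm c b a v (by simpa using h)
  tauto

/-- Both parts nonempty. -/
theorem fsg_core (h : GdL G K) (hm : Mono G K) {x y v : V} (hK : K [x, y]) (hx : G.Adj v x)
    (hy : ¬ G.Adj v y) (l₁ l₂ : List V) (hl : K (l₁ ++ l₂)) (h1 : l₁ ≠ []) (h2 : l₂ ≠ []) :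
    ∃ w, (∀ z ∈ l₁, G.Adj w z) ∧ ∀ z ∈ l₂, w ≠ z ∧ ¬ G.Adj w z := by
  have hp1 : 0 < l₁.length := List.length_pos_iff.2 h1
  have hp2 : 0 < l₂.length := List.length_pos_iff.2 h2
  obtain ⟨a, b, ha, hb, hab⟩ := h.ext hK (l₁.length - 1) (l₂.length - 1)
  have e : a ++ [x, y] ++ b = (a ++ [x]) ++ (y :: b) := by simp
  have hva : ∀ z ∈ a, G.Adj v z := by
    intro z hz
    have hs : K [z, x, y] := by
      refine h.sub _ _ hab ?_
      have : ([z] ++ [x, y] ++ []).Sublist (a ++ [x, y] ++ b) :=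
        ((List.singleton_sublist.2 hz).append (List.Sublist.refl _)).append (List.nil_sublist _)
      simpa using this
    by_contra hn
    exact (hm z x y v hs).2 ⟨hn, hx, hy⟩
  have hvb : ∀ z ∈ b, ¬ G.Adj v z := by
    intro z hz hn
    have hs : K [x, y, z] := by
      refine h.sub _ _ hab ?_
      have : ([] ++ [x, y] ++ [z]).Sublist (a ++ [x, y] ++ b) :=
        ((List.nil_sublist _).append (List.Sublist.refl _)).append (List.singleton_sublist.2 hz)
      simpa using this
    exact (hm x y z v hs).1 ⟨hx, hy, hn⟩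
  rw [e] at hab
  obtain ⟨φ, hφ⟩ := h.aut _ _ hab hl (by
    simp only [List.length_append, List.length_cons, List.length_nil]; omega)
  rw [List.map_append] at hφ
  obtain ⟨e1, e2⟩ := List.append_inj hφ (by
    simp only [List.length_map, List.length_append, List.length_cons, List.length_nil]; omega)
  have hw1 : ∀ z ∈ l₁, G.Adj (φ v) z := by
    intro z hz
    rw [← e1, List.mem_map] at hz
    obtain ⟨z', hz', rfl⟩ := hz
    rw [List.mem_append, List.mem_singleton] at hz'
    rcases hz' with hz' | rfl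
    · exact φ.map_adj_iff.2 (hva z' hz')
    · exact φ.map_adj_iff.2 hx
  refine ⟨φ v, hw1, ?_⟩
  intro z hz
  refine ⟨?_, ?_⟩
  · rintro rfl
    obtain ⟨u, hu⟩ := List.exists_mem_of_ne_nil _ h1
    exact h.ind _ hl (φ v) (List.mem_append_right _ hz) u (List.mem_append_left _ hu) (hw1 u hu)
  · rw [← e2, List.mem_map] at hz
    obtain ⟨z', hz', rfl⟩ := hz
    rw [List.mem_cons] at hz'
    rcases hz' with rfl | hz'
    · exact fun hc => hy (φ.map_adj_iff.1 hc)
    · exact fun hc => hvb z' hz' (φ.map_adj_iff.1 hc)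

theorem fsg_init (h : GdL G K) (hm : Mono G K) {x y v : V} (hK : K [x, y]) (hx : G.Adj v x)
    (hy : ¬ G.Adj v y) : InitO G K := by
  intro l₁ l₂ hl
  obtain ⟨a, b, ha, hb, hab⟩ := h.ext hl 1 1
  have e : a ++ (l₁ ++ l₂) ++ b = (a ++ l₁) ++ (l₂ ++ b) := by simp
  rw [e] at hab
  obtain ⟨w, hw1, hw2⟩ := fsg_core h hm hK hx hy _ _ hab
    (by intro hc; rw [List.append_eq_nil_iff] at hc; simp [hc.1] at ha)
    (by intro hc; rw [List.append_eq_nil_iff] at hc; simp [hc.2] at hb)
  exact ⟨w, fun z hz => hw1 z (List.mem_append_right _ hz),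
    fun z hz => hw2 z (List.mem_append_left _ hz)⟩

theorem fsg_fin (h : GdL G K) (hm : Mono G K) {x y v : V} (hK : K [x, y]) (hy : G.Adj v y)
    (hx : ¬ G.Adj v x) : FinO G K := by
  have hi : InitO G (fun l => K l.reverse) :=
    fsg_init h.reverse (fsg_mono_reverse hm) (x := y) (y := x) (v := v) (by simpa using hK) hy hx
  intro l₁ l₂ hl
  obtain ⟨w, hw1, hw2⟩ := hi l₂.reverse l₁.reverse (by simpa using hl)
  exact ⟨w, fun z hz => hw2 z (List.mem_reverse.2 hz), fun z hz => hw1 z (List.mem_reverse.2 hz)⟩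

theorem fsg_alt (h : GdL G K) (hm : Mono G K) : FinO G K ∨ NoFin G K := by
  by_cases hn : NoFin G K
  · exact Or.inr hn
  · left
    unfold NoFin at hn
    push Not at hn
    obtain ⟨x, y, v, hK, hy, hx⟩ := hn
    exact fsg_fin h hm hK hy hx

/-- module FSg (orientation) -/
theorem orient (h : GdL G K) (hm : Mono G K)
    (h1 : ∃ x y v, K [x, y] ∧ ¬ (G.Adj v x ↔ G.Adj v y)) :
    ∃ K' : List V → Prop, GdL G K' ∧ Mono G K' ∧ InitO G K' ∧ (FinO G K' ∨ NoFin G K') := by
  obtain ⟨x, y, v, hK, hne⟩ := h1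
  by_cases hx : G.Adj v x
  · have hy : ¬ G.Adj v y := fun hy => hne ⟨fun _ => hy, fun _ => hx⟩
    exact ⟨K, h, hm, fsg_init h hm hK hx hy, fsg_alt h hm⟩
  · have hy : G.Adj v y := by
      by_contra hy
      exact hne ⟨fun hc => absurd hc hx, fun hc => absurd hc hy⟩
    exact ⟨fun l => K l.reverse, h.reverse, fsg_mono_reverse hm,
      fsg_init h.reverse (fsg_mono_reverse hm) (x := y) (y := x) (v := v) (by simpa using hK) hy hx,
      fsg_alt h.reverse (fsg_mono_reverse hm)⟩

end FS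
end SetHom
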