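import Pool.Agent.Helper41.SH.Inv

/-!
# Project RC, SHARP: the Fourier coefficients of the alignment directions

`v t = ee (inv Θ (t + s) - t)`, `Θ x = x - D x`: `fc_v` (frequencies `n ≠ -1`), `fc_v_neg` (`n = -1`).
-/

set_option autoImplicit false

open MeasureTheory Set Filter Topology

namespace Helper83.SH

open Helper49.LT hiding sg
open Helper56.RC (fc)
open Helper41.SH (IA inv trp)

variable {Θ Θ' D : ℝ → ℝ}

theorem ee2 (t : ℝ) : ee (t + 2 * Real.pi) = ee t := by
  have := ee_int 1 t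
  simpa using this

theorem ee_intp (m : ℤ) (t : ℝ) : ee ((m : ℝ) * (t + 2 * Real.pi)) = ee ((m : ℝ) * t) := ee_int m t

/-- change of variables in the coefficient -/
theorem fc_v0 (h : IA Θ Θ') (s : ℝ) (n : ℤ) : fc (fun t => ee (inv Θ (t + s) - t)) n =
    ee (((n : ℝ) + 1) * s) * fc (trp Θ Θ' (fun θ => ee (((-(n + 1) : ℤ) : ℝ) * θ))) (-1) := by
  set G : ℝ → ℂ := fun θ => ee (inv Θ θ) * ee (((-(n + 1) : ℤ) : ℝ) * θ) with hG
  have hper : Function.Periodic G (2 * Real.pi) := by
    intro θ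
    simp only [hG]
    rw [h.inv_per, ee2, ee_intp]
  have e1 : ∫ t in (0 : ℝ)..(2 * Real.pi), ee (inv Θ (t + s) - t) * ee (-((n : ℝ) * t)) =
      ∫ t in (0 : ℝ)..(2 * Real.pi), ee (((n : ℝ) + 1) * s) * G (t + s) := by
    refine intervalIntegral.integral_congr fun t _ => ?_
    simp only [hG]
    rw [← ee_add, ← ee_add, ← ee_add]
    congr 1
    push_cast
    ring
  have e2 : ∫ t in (0 : ℝ)..(2 * Real.pi), G (t + s) = ∫ t in (0 : ℝ)..(2 * Real.pi), G t := by
    rw [intervalIntegral.integral_comp_add_right]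
    have := hper.intervalIntegral_add_eq s 0
    rw [zero_add] at this
    rw [zero_add, add_comm (2 * Real.pi) s]
    exact this
  have e3 : ∫ t in (0 : ℝ)..(2 * Real.pi), G t =
      ∫ x in (0 : ℝ)..(2 * Real.pi), Θ' x • (ee x * ee (((-(n + 1) : ℤ) : ℝ) * Θ x)) := by
    have := h.cov2 (G := fun θ x => ee x * ee (((-(n + 1) : ℤ) : ℝ) * θ)) (fun θ x => by rw [ee2, ee_intp])
    exact this
  unfold fc
  rw [e1, intervalIntegral.integral_const_mul, e2, e3]
  have e4 : ∫ x in (0 : ℝ)..(2 * Real.pi), Θ' x • (ee x * ee (((-(n + 1) : ℤ) : ℝ) * Θ x)) =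
      ∫ x in (0 : ℝ)..(2 * Real.pi), trp Θ Θ' (fun θ => ee (((-(n + 1) : ℤ) : ℝ) * θ)) x * ee (-(((-1 : ℤ) : ℝ) * x)) := by
    refine intervalIntegral.integral_congr fun x _ => ?_
    unfold trp
    simp only [Complex.real_smul]
    have : -(((-1 : ℤ) : ℝ) * x) = x := by push_cast; ring
    rw [this]
    ring
  rw [e4]
  ring

/-- **the coefficients of the alignment directions** -/
theorem fc_v (h : IA Θ Θ') (hD : ∀ x, Θ x = x - D x) (s : ℝ) {n : ℤ} (hn : n ≠ -1) :
    fc (fun t => ee (inv Θ (t + s) - t)) n =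
      ee (((n : ℝ) + 1) * s) / ((n : ℂ) + 1) * fc (fun x => ee (((n : ℝ) + 1) * D x)) n := by
  have hm : (-(n + 1) : ℤ) ≠ 0 := by
    intro h0
    apply hn
    omega
  rw [fc_v0 h, h.fc_mode hm (-1)]
  have e1 : fc (fun x => ee (((-(n + 1) : ℤ) : ℝ) * Θ x)) (-1) = fc (fun x => ee (((n : ℝ) + 1) * D x)) n := by
    unfold fc
    congr 1
    refine intervalIntegral.integral_congr fun x _ => ?_
    simp only
    rw [← ee_add, ← ee_add, hD]
    congr 1
    push_cast
    ring
  have hc : ((n : ℂ) + 1) ≠ 0 := by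
    have : ((n + 1 : ℤ) : ℂ) ≠ 0 := by
      exact_mod_cast fun h0 => hn (by omega)
    push_cast at this
    exact this
  rw [e1]
  have e2 : (((-1 : ℤ) : ℂ) / ((-(n + 1) : ℤ) : ℂ)) = 1 / ((n : ℂ) + 1) := by
    push_cast
    rw [neg_div_neg_eq]
  rw [e2]
  ring

/-- **the coefficient of the frequency `-1`** -/
theorem fc_v_neg (h : IA Θ Θ') (hD : ∀ x, Θ x = x - D x) (s : ℝ) :
    fc (fun t => ee (inv Θ (t + s) - t)) (-1) = Complex.I * fc (fun x => (D x : ℂ)) (-1) := by
  rw [fc_v0 h]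
  have e0 : ee ((((-1 : ℤ) : ℝ) + 1) * s) = 1 := by
    have : ((((-1 : ℤ) : ℝ) + 1) * s) = 0 := by push_cast; ring
    rw [this, ee_zero]
  have e1 : trp Θ Θ' (fun θ => ee (((-(-1 + 1) : ℤ) : ℝ) * θ)) = fun x => (Θ' x : ℂ) := by
    funext x
    unfold trp
    show (Θ' x : ℂ) * ee (((-(-1 + 1) : ℤ) : ℝ) * Θ x) = _
    have : ((-(-1 + 1) : ℤ) : ℝ) * Θ x = 0 := by push_cast; ring
    rw [this, ee_zero, mul_one]
  rw [e0, one_mul, e1]
  -- integration by parts
  have hDd : ∀ x, HasDerivAt (fun x => (D x : ℂ)) (1 - (Θ' x : ℂ)) x := by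
    intro x
    have h1 : HasDerivAt D (1 - Θ' x) x := by
      have e : D = fun x => x - Θ x := by
        funext y
        rw [hD]; ring
      rw [e]
      exact (hasDerivAt_id x).sub (h.hd x)
    have h2 := h1.ofReal_comp
    refine h2.congr_deriv ?_
    push_cast
    ring
  have he : ∀ x : ℝ, HasDerivAt (fun x : ℝ => ee x) (Complex.I * ee x) x := by
    intro x
    unfold ee
    have h1 : HasDerivAt (fun x : ℝ => (x : ℂ) * Complex.I) (((1 : ℝ) : ℂ) * Complex.I) x :=
      ((hasDerivAt_id x).ofReal_comp).mul_const Complex.I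
    have h2 := h1.cexp
    refine h2.congr_deriv ?_
    push_cast
    ring
  have hce : Continuous fun x : ℝ => ee x := continuous_iff_continuousAt.2 fun x => (he x).continuousAt
  have hcD : Continuous fun x : ℝ => (D x : ℂ) := continuous_iff_continuousAt.2 fun x => (hDd x).continuousAt
  have hcT : Continuous fun x : ℝ => (Θ' x : ℂ) := Complex.continuous_ofReal.comp h.hc
  have h3 := intervalIntegral.integral_mul_deriv_eq_deriv_mul (a := 0) (b := 2 * Real.pi)
    (fun x _ => he x) (fun x _ => hDd x)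
    ((continuous_const.mul hce).intervalIntegrable _ _)
    ((continuous_const.sub hcT).intervalIntegrable _ _)
  have h4 : ee (2 * Real.pi) * (D (2 * Real.pi) : ℂ) - ee 0 * (D 0 : ℂ) = 0 := by
    have k1 : ee (2 * Real.pi) = ee 0 := by
      have := ee2 0
      rwa [zero_add] at this
    have k2 : D (2 * Real.pi) = D 0 := by
      have p := h.per 0
      rw [hD, hD, zero_add] at p
      linarith
    rw [k1, k2, sub_self]
  rw [h4, zero_sub] at h3
  have h5 : ∫ x in (0 : ℝ)..(2 * Real.pi), ee x = 0 := by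
    have hF : ∀ x ∈ uIcc (0 : ℝ) (2 * Real.pi), HasDerivAt (fun x : ℝ => -Complex.I * ee x) (ee x) x := by
      intro x _
      refine ((he x).const_mul (-Complex.I)).congr_deriv ?_
      have : -Complex.I * (Complex.I * ee x) = -(Complex.I * Complex.I) * ee x := by ring
      rw [this, Complex.I_mul_I]
      ring
    rw [intervalIntegral.integral_eq_sub_of_hasDerivAt hF (hce.intervalIntegrable _ _)]
    have k1 : ee (2 * Real.pi) = ee 0 := by
      have := ee2 0
      rwa [zero_add] at this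
    rw [k1, sub_self]
  have h6 : ∫ x in (0 : ℝ)..(2 * Real.pi), ee x * (1 - (Θ' x : ℂ)) =
      (∫ x in (0 : ℝ)..(2 * Real.pi), ee x) - ∫ x in (0 : ℝ)..(2 * Real.pi), (Θ' x : ℂ) * ee x := by
    have i1 : IntervalIntegrable (fun x : ℝ => ee x) volume 0 (2 * Real.pi) := hce.intervalIntegrable _ _
    have i2 : IntervalIntegrable (fun x : ℝ => (Θ' x : ℂ) * ee x) volume 0 (2 * Real.pi) :=
      (hcT.mul hce).intervalIntegrable _ _
    rw [← intervalIntegral.integral_sub i1 i2]
    refine intervalIntegral.integral_congr fun x _ => ?_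
    show _ = _
    ring
  rw [h6, h5, zero_sub, neg_inj] at h3
  unfold fc
  have e5 : ∀ x : ℝ, -(((-1 : ℤ) : ℝ) * x) = x := fun x => by push_cast; ring
  simp only [e5]
  rw [h3]
  have e6 : ∫ x in (0 : ℝ)..(2 * Real.pi), Complex.I * ee x * (D x : ℂ) =
      Complex.I * ∫ x in (0 : ℝ)..(2 * Real.pi), (D x : ℂ) * ee x := by
    rw [← intervalIntegral.integral_const_mul]
    refine intervalIntegral.integral_congr fun x _ => ?_
    show _ = _
    ring
  rw [e6]
  ring

end Helper83.SH
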